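import Pool.Agent.Helper10.GO.GoalsT
import Pool.Agent.Helper73.HD.ORB

/-!
# Project GO (MP_6af536_nt), packet QORB: orbits of a rational map
-/

set_option autoImplicit false

open MvPolynomial Filter Topology

noncomputable section

namespace Pool.Agent.Helper24.GO

open Pool.Agent.Helper80.HD Pool.Agent.Helper80.AD Pool.Agent.Helper10.GO
open Pool.Agent.Helper73.HD (aeval_scale aeval_mem)

theorem qorb : S_QORB := by
  intro K _ _ N f
  have h1 : ∀ x y, f.Mem x → f.IsImage x y → f.Mem y := by
    intro x y hx hy
    obtain ⟨hx0, hxE⟩ := hx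
    obtain ⟨hy0, l, c, hc0, hc⟩ := hy
    refine ⟨hy0, fun E hE => ?_⟩
    obtain ⟨d, hd⟩ := f.eqs_homog E hE
    have h1 := f.maps x hx0 hxE l E hE
    have h2 : (fun j => aeval x (f.G l j)) = fun j => c * y j := funext hc
    rw [h2, aeval_scale hd] at h1
    exact (mul_eq_zero.1 h1).resolve_left (pow_ne_zero _ hc0)
  have h2 : ∀ x y, f.IsImage x y → x ≠ 0 → ratioField K y ≤ ratioField K x := by
    intro x y hy hx0
    obtain ⟨hy0, l, c, hc0, hc⟩ := hy
    unfold ratioField
    rw [IntermediateField.adjoin_le_iff]
    rintro z ⟨i, j, rfl⟩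
    show y i / y j ∈ ratioField K x
    by_cases hyj : y j = 0
    · rw [hyj, div_zero]
      exact (ratioField K x).zero_mem
    · obtain ⟨p, hp⟩ := Function.ne_iff.1 hx0
      have hp' : x p ≠ 0 := hp
      set v : Fin (N + 1) → ℂ := fun k => x k / x p with hv
      have hvm : ∀ k, v k ∈ ratioField K x := fun k =>
        IntermediateField.subset_adjoin K _ ⟨k, p, rfl⟩
      have hxv : x = fun k => x p * v k := by
        funext k
        rw [hv]
        field_simp
      have hG : ∀ k, aeval x (f.G l k) = x p ^ f.deg l * aeval v (f.G l k) := by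
        intro k
        conv_lhs => rw [hxv]
        exact aeval_scale (f.G_homog l k) _ _
      have h1 : y i / y j = aeval v (f.G l i) / aeval v (f.G l j) := by
        have hq : x p ^ f.deg l ≠ 0 := pow_ne_zero _ hp'
        have h2 : c * y i = x p ^ f.deg l * aeval v (f.G l i) := by rw [← hc i, hG i]
        have h3 : c * y j = x p ^ f.deg l * aeval v (f.G l j) := by rw [← hc j, hG j]
        calc y i / y j = (c * y i) / (c * y j) := by rw [mul_div_mul_left _ _ hc0]
          _ = _ := by rw [h2, h3, mul_div_mul_left _ _ hq]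
      rw [h1]
      exact (ratioField K x).div_mem (aeval_mem _ v hvm _) (aeval_mem _ v hvm _)
  refine ⟨h1, h2, fun x hx => ?_⟩
  have hmem : ∀ n, f.Mem (x n) := by
    intro n
    induction n with
    | zero => exact hx.1
    | succ n ih => exact h1 _ _ ih (hx.2 n)
  refine ⟨hmem, fun n m hnm => ?_⟩
  induction m, hnm using Nat.le_induction with
  | base => exact le_rfl
  | succ m _ ih => exact (h2 _ _ (hx.2 m) (hmem m).1).trans ih

end Pool.Agent.Helper24.GO

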